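import Pool.Agent.T2h28.NB.Hlf

/-!
# The KLS conjecture is equivalent to the KLS conjecture for nearly isotropic bodies very close to a ball

Let `D_n` be any unbounded sequence of real numbers, growing as slowly as you like, and `ε > 0`. Q1 holds
for all convex bodies if and only if it holds for the bodies `K ⊂ ℝⁿ`, of all dimensions, with

`B ⊂ K ⊂ (1 + D_n / n) B` for some Euclidean ball `B` (dilated about its centre)

whose covariance matrix is a multiple of the identity up to the factor `1 + ε`. The constants are the
same on both sides in the two forms: (a) without near isotropy, Q1 as stated (with halfspaces); (b) with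
near isotropy, the form with the largest variance of a marginal instead of the halfspaces. The same is
true for symmetric bodies in place of all bodies. If `D_n` is bounded then the inequality for these
bodies is known (E. Milman, Invent. Math. 2009: stability under a bounded change of the volume), so the
order `1 / n` of the distance to the ball is the exact threshold at which the conjecture becomes as hard
as for general bodies. In particular strong concentration of the Euclidean norm does not help: if
`D_n / √n → 0` then `|x|` has deviations of smaller order than the standard deviation of one coordinate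
(the thin shell is trivial), but the conjecture for these bodies implies it for all bodies.

Method. (1) Let `K ⊂ ℝⁿ` be any body, in isotropic position with variance `σ²`, contained in a ball of
radius `R` about `p ∈ K`. For `N = n + m` with `D_N` large consider `ℝ^N = ℝⁿ × ℝ^m` and

`K̂ = {(y, z) : |z| + τ d(y, K) ≤ ρ'} ∩ B((p, 0), √(R² + ρ'²))`

where `ρ' B` has variance `σ²` in each direction (so `ρ'` is about `σ √m`) and `ρ √(1 + τ²) = ρ'`,
`(1 + D_N / N) ρ = √(R² + ρ'²)`. `K̂` is convex, contains the ball of radius `ρ` about `(p, 0)` and is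
contained in its dilate by `1 + D_N / N`, and it contains `K × ρ' B`. The section of `K̂` over `y` has at
most `exp(- λ d(y, K))` times the volume of `ρ' B`, where `λ = m τ / ρ'` is at least
`(D_N / (2 R² + 16 σ²))^{1/2}`, which is as large as we want. Hence the uniform measure of `K̂` is
`1 + o(1)` times the one of `K × ρ' B`, up to a part of measure `o(1)`, and the covariances converge, so
`K̂` is nearly isotropic. The inequality for the cylinders over `A ⊂ K` in `K̂` gives the one for `A`; the
limit is taken in an integrated form of the inequality, for the neighbourhoods of `A` of a fixed size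
(`cyl_fin`, `base_fin`, `low_of_fin`). (2) For the form with halfspaces and the same constant the
truncated parallel bodies `(K + ρ B) ∩ (1 + D_N / N) ρ B` are used, with `ρ² = N R² / (2 D_N)`; for them
the variance in the new directions tends to zero. It has to be shown that the halfspace constant of
these bodies is, in the limit, at least the one of `K`. It is enough to consider the halfspaces of measure
one half, because the distribution functions of the marginals are log-concave; if the functional is almost
constant on `K` its law is narrow and log-concave, so the density at the median is large; otherwise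
the inequality for `K` is integrated over the ball. (3) The two forms of the inequality are equivalent up
to constants by Chebyshev's inequality and log-concavity, and by module `Y211.FF` of the starting files.

The reduction does not settle the inequality for any new body. Related: E. Milman's theorem says that
the inequality is stable under changes of the volume by a bounded factor; the present theorem says that
an arbitrarily slowly growing factor destroys all of the information, even for bodies sandwiched between
two balls. Bourgain, Klartag and V. Milman (2004) reduced the slicing problem to bodies of bounded volume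
ratio, by another method. The Prekopa-Leindler inequality is from the starting files.
-/

set_option autoImplicit false

namespace Pool.Agent.Results.MP_8d00da_gt.NearEuclideanBalls

open MeasureTheory Set
open scoped ENNReal InnerProductSpace

/-- Euclidean space of dimension `n` -/
abbrev Euc (n : ℕ) : Type := EuclideanSpace ℝ (Fin n)

/-- the uniform probability measure on `K` -/
noncomputable def unif {n : ℕ} (K : Set (Euc n)) : Measure (Euc n) :=
  (volume K)⁻¹ • volume.restrict K

/-- convex bodies -/
structure Body {n : ℕ} (K : Set (Euc n)) : Prop where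
  comp : IsCompact K
  conv : Convex ℝ K
  int : (interior K).Nonempty

/-- Minkowski (exterior) boundary measure `μ⁺(A)` -/
noncomputable def bdry {n : ℕ} (μ : Measure (Euc n)) (A : Set (Euc n)) : ℝ≥0∞ :=
  Filter.liminf (fun ε : ℝ => (μ (Metric.thickening ε A) - μ A) / ENNReal.ofReal ε)
    (nhdsWithin 0 (Set.Ioi 0))

/-- the halfspace `⟪u, x⟫ ≤ b` -/
def halfspace {n : ℕ} (u : Euc n) (b : ℝ) : Set (Euc n) := {x | inner ℝ u x ≤ b}

/-- `t min(μ H, 1 - μ H) ≤ μ⁺(H)` for all halfspaces `H`, where `μ` is the uniform measure on `K` -/
def HalfspaceBound {n : ℕ} (t : ℝ≥0∞) (K : Set (Euc n)) : Prop :=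
  ∀ (u : Euc n) (b : ℝ), u ≠ 0 →
    t * min (unif K (halfspace u b)) (1 - unif K (halfspace u b)) ≤
      bdry (unif K) (halfspace u b)

/-- the inequality of Kannan, Lovasz and Simonovits with constant `c` (Q1): if
`t min(μ H, 1 - μ H) ≤ μ⁺(H)` for all halfspaces `H` then `c t min(μ A, 1 - μ A) ≤ μ⁺(A)` for all
measurable `A` -/
def KLS {n : ℕ} (c : ℝ) (K : Set (Euc n)) : Prop :=
  ∀ t : ℝ≥0∞, HalfspaceBound t K → ∀ A : Set (Euc n), MeasurableSet A →
    ENNReal.ofReal c * t * min (unif K A) (1 - unif K A) ≤ bdry (unif K) A

/-- variance of the functional `⟪u, x⟫` for `x` uniformly distributed in `K` -/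
noncomputable def Var {n : ℕ} (K : Set (Euc n)) (u : Euc n) : ℝ :=
  ProbabilityTheory.variance (fun x => ⟪u, x⟫_ℝ) (unif K)

/-- the form with variances: if all marginals in directions of length one have variance at most `s²`
then `(c / s) min(μ A, 1 - μ A) ≤ μ⁺(A)` for all measurable `A` -/
def KLSVar {n : ℕ} (c : ℝ) (K : Set (Euc n)) : Prop :=
  ∀ s : ℝ, 0 < s → (∀ u : Euc n, ‖u‖ = 1 → Var K u ≤ s ^ 2) →
    ∀ A : Set (Euc n), MeasurableSet A →
      ENNReal.ofReal (c / s) * min (unif K A) (1 - unif K A) ≤ bdry (unif K) A

/-- `B ⊂ K ⊂ (1 + δ) B` for some ball `B` (dilated about its centre) -/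
def NearBall {n : ℕ} (δ : ℝ) (K : Set (Euc n)) : Prop :=
  ∃ (x : Euc n) (r : ℝ), 0 < r ∧ Metric.closedBall x r ⊆ K ∧ K ⊆ Metric.closedBall x ((1 + δ) * r)

/-- all marginals in directions of length one have the same variance up to the factor `1 + ε` -/
def NearlyIsotropic {n : ℕ} (ε : ℝ) (K : Set (Euc n)) : Prop :=
  ∃ v : ℝ, 0 < v ∧ ∀ u : Euc n, ‖u‖ = 1 → v ≤ Var K u ∧ Var K u ≤ (1 + ε) * v

/-- `K = -K` -/
def Symmetric {n : ℕ} (K : Set (Euc n)) : Prop := ∀ x ∈ K, -x ∈ K

theorem body_iff {n : ℕ} {K : Set (Euc n)} : Body K ↔ Pool.Agent.T2h28.NB.Body K :=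
  ⟨fun h => ⟨h.comp, h.conv, h.int⟩, fun h => ⟨h.comp, h.conv, h.int⟩⟩

theorem kls_iff {n : ℕ} {c : ℝ} {K : Set (Euc n)} : KLS c K ↔ Pool.Agent.T2h28.NB.KLS c K := Iff.rfl

theorem var_iff {n : ℕ} {c : ℝ} {K : Set (Euc n)} : KLSVar c K ↔ Pool.Agent.T2h28.NB.KLV c K :=
  Iff.rfl

/-- **KLS near the ball.** Let `D` be unbounded and `ε > 0` (take `sym = False` for all bodies and
`sym = True` for the symmetric ones). Q1 for the nearly isotropic bodies with
`B ⊂ K ⊂ (1 + D_n / n) B` is equivalent to Q1 for all bodies; Q1 with constant `c` for the bodies with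
`B ⊂ K ⊂ (1 + D_n / n) B` is equivalent to Q1 with the same constant for all bodies; and the form with
variances with constant `c` for the nearly isotropic bodies with `B ⊂ K ⊂ (1 + D_n / n) B` is
equivalent to the one with the same constant for all bodies. -/
theorem result (sym : Prop) (D : ℕ → ℝ) (ε : ℝ) (hD : ¬ BddAbove (range D)) (hε : 0 < ε) :
    ((∃ c : ℝ, 0 < c ∧ ∀ (n : ℕ) (K : Set (Euc n)), Body K → (sym → Symmetric K) →
          NearBall (D n / n) K → NearlyIsotropic ε K → KLS c K) ↔
        ∃ c : ℝ, 0 < c ∧ ∀ (n : ℕ) (K : Set (Euc n)), Body K → (sym → Symmetric K) → KLS c K) ∧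
    ∀ c : ℝ,
      ((∀ (n : ℕ) (K : Set (Euc n)), Body K → (sym → Symmetric K) →
            NearBall (D n / n) K → KLS c K) ↔
          ∀ (n : ℕ) (K : Set (Euc n)), Body K → (sym → Symmetric K) → KLS c K) ∧
      ((∀ (n : ℕ) (K : Set (Euc n)), Body K → (sym → Symmetric K) →
            NearBall (D n / n) K → NearlyIsotropic ε K → KLSVar c K) ↔
          ∀ (n : ℕ) (K : Set (Euc n)), Body K → (sym → Symmetric K) → KLSVar c K) := by
  have hvar : ∀ c : ℝ,
      (∀ (n : ℕ) (K : Set (Euc n)), Body K → (sym → Symmetric K) →
        NearBall (D n / n) K → NearlyIsotropic ε K → KLSVar c K) →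
      ∀ (n : ℕ) (K : Set (Euc n)), Body K → (sym → Symmetric K) → KLSVar c K := by
    intro c H n K hK hs
    refine Pool.Agent.T2h28.NB.klv_all (body_iff.1 hK) hD hε fun N L hL h1 h2 h3 => ?_
    exact H N L (body_iff.2 hL) (fun hsym => h3 (hs hsym)) h1 h2
  refine ⟨⟨?_, ?_⟩, fun c => ⟨⟨?_, ?_⟩, ⟨?_, ?_⟩⟩⟩
  · rintro ⟨c, hc, H⟩
    obtain ⟨c₁, hc₁, H₁⟩ := Pool.Agent.T2h28.NB.kls_of_klv
    refine ⟨c₁ * (c / 10), by positivity, fun n K hK hs => ?_⟩
    refine H₁ n K (body_iff.1 hK) (c / 10) (by positivity) ?_
    refine hvar (c / 10) (fun N L hL h1 h2 h3 => ?_) n K hK hs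
    exact Pool.Agent.T2h28.NB.klv_of_kls (body_iff.1 hL) hc.le (H N L hL h1 h2 h3)
  · rintro ⟨c, hc, H⟩
    exact ⟨c, hc, fun n K hK hs _ _ => H n K hK hs⟩
  · intro H n K hK hs
    refine Pool.Agent.T2h28.NB.kls_all (body_iff.1 hK) hD fun N L hL h1 h2 => ?_
    exact H N L (body_iff.2 hL) (fun hsym => h2 (hs hsym)) h1
  · exact fun H n K hK hs _ => H n K hK hs
  · exact hvar c
  · exact fun H n K hK hs _ _ => H n K hK hs

end Pool.Agent.Results.MP_8d00da_gt.NearEuclideanBalls
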