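import Pool.Agent.T2h95.OF.Fin2

/-!
# The KLS conjecture for ordered tuples of points of bodies with homothetic sections

Let `L ⊂ ℝᵏ` be a convex body and `D ⊂ ℝ × ℝᵏ` a convex body whose sections `{z | (x, z) ∈ D}` are all
homothetic to `L`: every planar convex body (`k = 1`), cones, double cones, cylinders and their convex
truncations over `L`, bodies of revolution and their shears (`L` a ball), ... For a partial order `R` on
`n` points let `K ⊂ ℝ^(n(k+1))` be the set of the `n`-tuples of points `(x_i, z_i)` of `D` with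
`x_i ≤ x_j` if `R i j`. If `L` satisfies the inequality of Kannan, Lovasz and Simonovits with constant
`κ` (Poincare form) then `K` satisfies it with constant `167044 κ` (Poincare form) and with constant
`c/√κ` (Cheeger form, all measurable sets), where `c > 0` is absolute. Every `L` has a constant `κ` which
depends on `k` only, so Q1 holds for all these `K` with a constant which depends on `k` only; for `k = 1`
it is absolute: Q1 for the partially ordered tuples of points of any planar convex body. If `L` is an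
order polytope (a cube, a simplex, ...) then `κ = 12/π²` by the inequality behind the starting result
`OrderPolytopes`, so Q1 holds for these `K` with an absolute constant in all dimensions. It is not
assumed that `D`, `L` or `K` is isotropic.

For `n = 1` and `D = {(x, z) | ‖z‖_L ≤ φ(x)}` the result is due to Huet (Spectral gap for some invariant
log-concave probability measures, Mathematika 57, 2011).

Method. `D = {(x, z) | α ≤ x ≤ β, z ∈ ψ(x) + φ(x) L}` with the barycentre of `L` at `0`. Let `ν` be the law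
of `x` for a random point of `D` (density proportional to `φᵏ`). The variance over `K` is the mean of the
variances over the fibres (`z` given `x`: an affine image of `Lⁿ`) plus the variance of the mean over the
fibres, a function `g` on the cone `{x_i ≤ x_j if R i j}` with the measure `νⁿ`.
(1) Poincare's inequality with weights on this cone, `Var g ≤ 4 E ∑ θ(x_i)² (∂_i g)²`, where `θ` is the
smaller one of the two tails of `ν` divided by its density: a path coupling (as in the starting result
`OrderPolytopes`, modules `R972.OP`) for exchanges of labels at the quantiles of `ν`, with the rates given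
by the minimiser of the Rayleigh quotient for the weight, and Hardy's inequality.
(2) `∂_i g` contains `ψ'(x_i)` and `φ'(x_i)` times a point of `L`. The tail of `φᵏ` is at most that of
its tangent, so `θ |φ'| ≤ φ/(k+1)`; the radius of `L` is at most `√3 (k+1)` times the root of its Poincare
constant (a homothetic copy of `L` about a boundary point): the factors `k+1` cancel. The support
functions of the sections are concave in `x`, so `|ψ'(x) - ψ'(m)| ≤ r_L |φ'(x) - φ'(m)|`, `r_L` the radius
of `L`, and since `θ` is maximal at the median `m`, `θ |ψ' - ψ'(m)|` has the same bound. The remaining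
part is linear, with slope `ψ'(m)`.
(3) The means of symmetric functions over `K` do not depend on the order, so the sum of a linear function
of the points has the variance it has for independent points; this bounds the largest variance of a linear
function from below (for the direction `ψ'(m)`, (1) and (2) are used again).
(4) From Poincare's to Cheeger's inequality as in `OrderPolytopes` (modules `W695.KH`, `W800.KH`, `Y211.FF`
of the starting files).

Parts by helpers 2, 4, 5, 6, 9, 21, 25, 26, 32, 33, 34, 35, 37, 42, 49, 51, 56, 58, 60, 62, 64, 71, 75, 82,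
84, 92, 97, 99 and 95
(modules `T2h95.OC`, `T2h95.OD`, `T2h95.OF`).
-/

set_option autoImplicit false

namespace Pool.Agent.Results.MP_8d00da_gt.OrderedTuples

open MeasureTheory Set
open scoped ENNReal InnerProductSpace

/-- Euclidean space with coordinates indexed by `ι` -/
abbrev Euc (ι : Type) [Fintype ι] : Type := EuclideanSpace ℝ ι

/-- the uniform probability measure on `K` -/
noncomputable def unif {ι : Type} [Fintype ι] (K : Set (Euc ι)) : Measure (Euc ι) :=
  (volume K)⁻¹ • volume.restrict K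

/-- Minkowski (exterior) boundary measure `μ⁺(A)` -/
noncomputable def bdry {ι : Type} [Fintype ι] (μ : Measure (Euc ι)) (A : Set (Euc ι)) : ℝ≥0∞ :=
  Filter.liminf (fun ε : ℝ => (μ (Metric.thickening ε A) - μ A) / ENNReal.ofReal ε)
    (nhdsWithin 0 (Set.Ioi 0))

/-- the halfspace `⟪u, x⟫ ≤ b` -/
def halfspace {ι : Type} [Fintype ι] (u : Euc ι) (b : ℝ) : Set (Euc ι) := {x | inner ℝ u x ≤ b}

/-- the inequality of Kannan, Lovasz and Simonovits (Cheeger form) with constant `c` for the uniform
measure `μ` on `K`: if `t min(μ H, 1 - μ H) ≤ μ⁺(H)` for all halfspaces `H` then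
`c t min(μ A, 1 - μ A) ≤ μ⁺(A)` for all measurable `A` -/
def KLS {ι : Type} [Fintype ι] (c : ℝ) (K : Set (Euc ι)) : Prop :=
  ∀ t : ℝ≥0∞, (∀ (u : Euc ι) (b : ℝ), u ≠ 0 →
      t * min (unif K (halfspace u b)) (1 - unif K (halfspace u b)) ≤
        bdry (unif K) (halfspace u b)) →
    ∀ A : Set (Euc ι), MeasurableSet A →
      ENNReal.ofReal c * t * min (unif K A) (1 - unif K A) ≤ bdry (unif K) A

/-- convex body: compact and convex with interior points -/
structure Body {E : Type} [NormedAddCommGroup E] [NormedSpace ℝ E] (K : Set E) : Prop where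
  comp : IsCompact K
  conv : Convex ℝ K
  int : (interior K).Nonempty

/-- the inequality of Kannan, Lovasz and Simonovits (Poincare form) with constant `κ`: for some unit
vector `θ`, `Var f ≤ κ Var⟪θ, ·⟫ E |∇f|²` for all `C¹` functions `f`, for the uniform measure on `K` -/
def PoincareKLS {ι : Type} [Fintype ι] (κ : ℝ) (K : Set (Euc ι)) : Prop :=
  ∃ θ : Euc ι, ‖θ‖ = 1 ∧ ∀ f : Euc ι → ℝ, ContDiff ℝ 1 f →
    ProbabilityTheory.variance f (unif K) ≤
      κ * ProbabilityTheory.variance (fun x : Euc ι => ⟪θ, x⟫_ℝ) (unif K) *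
        ∫ x, ‖fderiv ℝ f x‖ ^ 2 ∂unif K

/-- every nonempty section `{z | (x, z) ∈ D}` is `a + r L` for some `a` and some `r ≥ 0` -/
def HomotheticSections {k : ℕ} (L : Set (Euc (Fin k))) (D : Set (ℝ × Euc (Fin k))) : Prop :=
  ∀ x : ℝ, {z | (x, z) ∈ D}.Nonempty →
    ∃ (a : Euc (Fin k)) (r : ℝ), 0 ≤ r ∧ {z | (x, z) ∈ D} = (fun v => a + r • v) '' L

/-- the point `(x_i, z_i)` of the tuple `y` -/
noncomputable def point {n k : ℕ} (y : Euc (Fin n ⊕ Fin n × Fin k)) (i : Fin n) :
    ℝ × Euc (Fin k) := (y (Sum.inl i), WithLp.toLp 2 fun j => y (Sum.inr (i, j)))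

/-- the `n`-tuples of points `(x_i, z_i)` of `D` with `x_i ≤ x_j` if `R i j`, a subset of the Euclidean
space of dimension `n(k+1)` -/
def tuples {n k : ℕ} (D : Set (ℝ × Euc (Fin k))) (R : Fin n → Fin n → Prop) :
    Set (Euc (Fin n ⊕ Fin n × Fin k)) :=
  {y | (∀ i, point y i ∈ D) ∧ ∀ i j, R i j → (point y i).1 ≤ (point y j).1}

/-- the order polytope `{x ∈ [0,1]ᵏ | x_i ≤ x_j if Q i j}` -/
def orderPolytope {k : ℕ} (Q : Fin k → Fin k → Prop) : Set (Euc (Fin k)) :=
  {x | (∀ i, 0 ≤ x i ∧ x i ≤ 1) ∧ ∀ i j, Q i j → x i ≤ x j}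

/-- **KLS for partially ordered tuples of points.** There is an absolute constant `c > 0` with the
following property. Let `n, k ≥ 1`, `L ⊂ ℝᵏ` and `D ⊂ ℝ × ℝᵏ` convex bodies such that all sections
`{z | (x, z) ∈ D}` are homothetic to `L`, `R` a partial order on `n` points (reflexive or strict: only
antisymmetry and transitivity are assumed) and `K` the set of the `n`-tuples of points `(x_i, z_i)` of
`D` with `x_i ≤ x_j` if `R i j`. Then `K` is a convex body; if `L` satisfies the inequality of Kannan,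
Lovasz and Simonovits with constant `κ` (Poincare form) then `K` satisfies it with constant `c/√κ`
(Cheeger form, all measurable sets) and with constant `167044 κ` (Poincare form). Here
`κ = 6 (k+1)² 2ᵏ` is possible for every `L`, and `κ = 12/π²` if `L` is the order polytope of a partial
order on `k` points. -/
theorem result : ∃ c : ℝ, 0 < c ∧ ∀ (n k : ℕ) (L : Set (Euc (Fin k))) (D : Set (ℝ × Euc (Fin k)))
    (R : Fin n → Fin n → Prop), 1 ≤ n → 1 ≤ k → Body L → Body D → HomotheticSections L D →
    (∀ a b, R a b → R b a → a = b) → (∀ a b c, R a b → R b c → R a c) →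
    Body (tuples D R) ∧
    (∀ κ : ℝ, PoincareKLS κ L →
      KLS (c / √κ) (tuples D R) ∧ PoincareKLS (167044 * κ) (tuples D R)) ∧
    PoincareKLS (6 * (k + 1) ^ 2 * 2 ^ k) L ∧
    ∀ Q : Fin k → Fin k → Prop, (∀ a b, Q a b → Q b a → a = b) →
      (∀ a b c, Q a b → Q b c → Q a c) → L = orderPolytope Q →
      PoincareKLS (12 / Real.pi ^ 2) L := by
  obtain ⟨c, hc, H⟩ := Pool.Agent.T2h95.OF.Fin2.tgt_kls
  refine ⟨c, hc, fun n k L D R hn hk hL hD hh hanti htr => ?_⟩
  have hv : 0 < volume L :=
    lt_of_lt_of_le (isOpen_interior.measure_pos volume hL.int) (measure_mono interior_subset)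
  have hlin : ∀ θ : Euc (Fin k), Continuous fun x : Euc (Fin k) => ⟪θ, x⟫_ℝ := fun θ => by fun_prop
  have hvar : ∀ v : Euc (Fin k) → ℝ, Continuous v →
      ProbabilityTheory.variance v (unif L) = Pool.Agent.W695.KH.VV L v := fun v h =>
    Pool.Agent.T2h95.OF.Fin.var_eq hL.comp hv v h
  have hint : ∀ v : Euc (Fin k) → ℝ, ∫ x, v x ∂unif L = Pool.Agent.W695.KH.EV L v := fun v =>
    Pool.Agent.T2h95.OC.CHE.ung_int L v
  have hPK : ∀ κ : ℝ, PoincareKLS κ L ↔ ∃ θ, ‖θ‖ = 1 ∧ Pool.Agent.T2h95.OF.Fin.PK κ L θ := by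
    intro κ
    constructor
    · rintro ⟨θ, hθ, h⟩
      refine ⟨θ, hθ, fun f hf => ?_⟩
      have h1 := h f hf
      rw [hvar f hf.continuous, hvar _ (hlin θ), hint] at h1
      exact h1
    · rintro ⟨θ, hθ, h⟩
      refine ⟨θ, hθ, fun f hf => ?_⟩
      rw [hvar f hf.continuous, hvar _ (hlin θ), hint]
      exact h f hf
  obtain ⟨b, hCB, hb⟩ := Pool.Agent.T2h95.OF.t_TR7 k L hL.conv hL.comp hL.int
  have hK : Body (tuples D R) := by
    obtain ⟨h1, h2, h3⟩ := Pool.Agent.T2h95.OF.t_GE7 n k (Pool.Agent.T2h95.OF.Fin.cD D) R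
      (Pool.Agent.T2h95.OF.Fin.cD_comp hD.comp) (Pool.Agent.T2h95.OF.Fin.cD_conv hD.conv)
      (Pool.Agent.T2h95.OF.Fin.cD_int hD.int) hanti htr
    exact ⟨h1, h2, h3⟩
  have hvK : 0 < volume (tuples D R) :=
    lt_of_lt_of_le (isOpen_interior.measure_pos volume hK.int) (measure_mono interior_subset)
  refine ⟨hK, fun κ hκ => ?_, ?_, fun Q hQa hQt hQ => ?_⟩
  · obtain ⟨θ, hθ, hP⟩ := (hPK κ).1 hκ
    have hT : Pool.Agent.T2h95.OF.Tgt (167044 * κ) (tuples D R) := by
      refine Pool.Agent.T2h95.OF.th7p_all n k κ θ _ (Pool.Agent.T2h95.OF.Fin.cD D) R hn hk hCB hθ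
        (Pool.Agent.T2h95.OF.Fin.pk_down hL.comp hv hb hP)
        (Pool.Agent.T2h95.OF.Fin.cD_comp hD.comp) (Pool.Agent.T2h95.OF.Fin.cD_conv hD.conv)
        (Pool.Agent.T2h95.OF.Fin.cD_int hD.int) (fun x z hz => ?_) hanti htr
      obtain ⟨a, r, hr, he⟩ := hh x ⟨_, hz⟩
      refine ⟨fun j => a j + r * b j, r, hr, fun z' => ?_⟩
      have h1 : (x, z') ∈ Pool.Agent.T2h95.OF.Fin.cD D ↔
          (WithLp.toLp 2 z' : Euc (Fin k)) ∈ {z | (x, z) ∈ D} := Iff.rfl
      rw [h1, he]
      constructor
      · rintro ⟨v, hvL, hvz⟩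
        refine ⟨fun j => v j - b j, ⟨v, hvL, ?_⟩, fun j => ?_⟩
        · ext j
          simp
        · have h2 := congrArg (fun y : Euc (Fin k) => y j) hvz
          simp only [PiLp.add_apply, PiLp.smul_apply, smul_eq_mul] at h2
          rw [← h2]
          ring
      · rintro ⟨v', ⟨v, hvL, hvv⟩, h2⟩
        refine ⟨v, hvL, ?_⟩
        ext j
        have h3 := congrArg (fun y : Euc (Fin k) => y j) hvv
        simp only [PiLp.sub_apply] at h3
        simp only [PiLp.add_apply, PiLp.smul_apply, smul_eq_mul]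
        rw [h2 j, ← h3]
        ring
    have hκ0 : 0 < κ := by
      obtain ⟨Cp, θ₁, h1, -, -, h2⟩ := hT
      by_contra h3
      push Not at h3
      have h4 : 0 ≤ Pool.Agent.W695.KH.EV (tuples D R) fun x => (⟪θ₁, x⟫_ℝ - 0) ^ 2 := by
        unfold Pool.Agent.W695.KH.EV
        exact div_nonneg (integral_nonneg fun x => sq_nonneg _) ENNReal.toReal_nonneg
      have h5 := h2 0
      nlinarith [mul_nonneg (neg_nonneg.2 h3) h4]
    refine ⟨H κ hκ0 _ (tuples D R) hK.comp hK.conv hK.int hT, ?_⟩
    obtain ⟨θ₁, hθ₁, h6⟩ := Pool.Agent.T2h95.OF.Fin2.tgt_pk hK.comp hvK hT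
    refine ⟨θ₁, hθ₁, fun f hf => ?_⟩
    have e1 : ProbabilityTheory.variance f (unif (tuples D R)) =
        Pool.Agent.W695.KH.VV (tuples D R) f :=
      Pool.Agent.T2h95.OF.Fin2.var_eq hK.comp hvK f hf.continuous
    have e2 : ProbabilityTheory.variance (fun x => ⟪θ₁, x⟫_ℝ) (unif (tuples D R)) =
        Pool.Agent.W695.KH.VV (tuples D R) fun x => ⟪θ₁, x⟫_ℝ :=
      Pool.Agent.T2h95.OF.Fin2.var_eq hK.comp hvK _ (by fun_prop)
    have e3 : ∫ x, ‖fderiv ℝ f x‖ ^ 2 ∂unif (tuples D R) =
        Pool.Agent.W695.KH.EV (tuples D R) fun x => ‖fderiv ℝ f x‖ ^ 2 :=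
      Pool.Agent.T2h95.OC.CHE.ung_int (tuples D R) _
    rw [e1, e2, e3]
    exact h6 f hf
  · obtain ⟨θ, hθ, hP⟩ := Pool.Agent.T2h95.OD.un6_all k _ hk hCB
    exact (hPK _).2 ⟨θ, hθ, Pool.Agent.T2h95.OF.Fin.pk_up hL.comp hv hb hP⟩
  · refine (hPK _).2 ⟨Pool.Agent.R972.OP.th k, Pool.Agent.R972.OP.th_norm hk, ?_⟩
    rw [hQ]
    exact Pool.Agent.T2h95.OF.Fin.pk_order hk Q hQa hQt

end Pool.Agent.Results.MP_8d00da_gt.OrderedTuples
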