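import Pool.Agent.T2h31.OB.AllA

/-!
# The KLS conjecture for the bodies `∑ V(x_i) ≤ E` cut by relations between the coordinates

Q1, in the form of the inequality for sets of measure one half (to which Q1 reduces by the theorem of
Sternberg and Zumbrun quoted in the problem), with an absolute constant, for all convex bodies
`K = {x ∈ [a,b]ⁿ | ∑ V(x_i) ≤ E}`, `V` any convex function, cut by any relations of the form `x_i ≤ x_j`
and, if `V` is even and `a = -b`, also of the forms `x_i + x_j ≤ 0`, `x_i + x_j ≥ 0`, `x_i ≤ 0`, `x_i ≥ 0`;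
in the position in which they are given. For constant `V` these are the order polytopes (starting
result `OrderPolytopes`) and the fractional stable set polytopes of all graphs, the vertex cover
polytopes, the linear relaxations of all instances of 2-SAT. Other examples: `V(t) = |t|^p`, the
`ℓ_p` balls cut by any such relations; `V(t) = t`, `a = 0`: the simplex `x ≥ 0`, `∑ x_i ≤ 1` cut by any
partial order. Without relations the bodies are (permutation invariant) Orlicz balls (starting result
`OrliczBalls`). With relations neither a symmetry nor a product structure is left.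

Method. Let `f = exp (-V)` after normalisation be a probability density of variance one, `ρ = ∏ f(x_i)`,
`C` the cone of the relations, `E` the level at which `exp (-s) |{∑ V(x_i) ≤ s}|` is maximal.
(1) Poincare's inequality on `C` for `ρ`: with the monotone (odd) map `q` of the uniform law on an
interval to `f dt` it becomes a Poincare inequality with the weight `min(u, 1-u)²` for the uniform
measure on an order polytope or on a body of type B. This is proved by a path coupling in the style
of Bubley and Dyer for a chain on the placements of the (signed) labels `1, ..., n` on `N` (on `2 N`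
odd) positions, which exchanges neighbouring positions (and their negatives): configurations which
differ by one transposition or reflection can be coupled such that the distance `W(j) - W(i)` decreases
in the mean at the rate one whatever the relations are, `W` an eigenfunction of the chain of one
particle close to the slope of the square root. (2) The flows of the fields `(w(x_i))`, `w` any function
(odd, for the signed relations), preserve `C`, and symmetric (even symmetric) functions have the same
means over all the cones. So the integration by parts which moves the concentration of Lipschitz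
functions from `ρ` to the level set for Orlicz balls works on `C`. (3) Variance of linear functionals.
Let `w` be a field with `(w f)' = -h f`, `h` uncorrelated with `V` (found in a two-parameter family
of polynomials in the distribution function). The mean `y` of `(w(x_i))` over `C` satisfies
`y_i = Cov(x_i, ∑ h(x_j))`, so `⟨y, x⟩` has a variance which stays large if the part correlated with
`∑ V(x_i)` is removed, unless a coordinate has. The law of `(⟨u, x⟩, s)` with density
`1[∑ V(x_i) ≤ s, x ∈ C] exp (-s)` is log-concave in the plane, and two-dimensional estimates give the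
same on the level set. (4) Approximation of general `V` and of the constraints `a ≤ x_i ≤ b`. (5) From
the concentration to the isoperimetric inequality by the theorem of E. Milman (starting files,
`Y665.FF`); the halfspace constant bounds the variances because it forces exponential tails of the
one-dimensional marginals (`Y211.FF`).

Statements in `T2h31.SB`, `T2h31.LC`, `T2h31.OB` by helper 31; proofs by helpers 3, 4, 5, 6, 7, 13, 21, 23, 25, 31,
32, 35, 42, 45, 46, 49, 57, 58, 60, 62, 64, 67, 69, 71, 76, 82, 84, 85, 90, 97. The same files prove the Cheeger form for all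
measurable sets for constant `V` (`T2h31.SB.fin_all`) and the Poincare form, with the constant 3528,
for independent variables with the same even log-concave density given any signed relations
(`T2h31.LC.meab_all`).
-/

set_option autoImplicit false

namespace Pool.Agent.Results.MP_8d00da_gt.OrliczBodiesWithRelations

open MeasureTheory Set
open scoped ENNReal InnerProductSpace

/-- Euclidean space of dimension `n` -/
abbrev Euc (n : ℕ) : Type := EuclideanSpace ℝ (Fin n)

/-- `{x ∈ [a,b]ⁿ | ∑ V(x_i) ≤ E, x_i ≤ x_j if A i j, x_i + x_j ≤ 0 if B i j, x_i + x_j ≥ 0 if C i j}` -/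
def body {n : ℕ} (V : ℝ → ℝ) (E a b : ℝ) (A B C : Fin n → Fin n → Prop) : Set (Euc n) :=
  {x | (∀ i, a ≤ x i ∧ x i ≤ b) ∧ ∑ i, V (x i) ≤ E ∧ (∀ i j, A i j → x i ≤ x j) ∧
    (∀ i j, B i j → x i + x j ≤ 0) ∧ ∀ i j, C i j → 0 ≤ x i + x j}

/-- the uniform probability measure on `K` -/
noncomputable def unif {n : ℕ} (K : Set (Euc n)) : Measure (Euc n) :=
  (volume K)⁻¹ • volume.restrict K

/-- Minkowski (exterior) boundary measure `μ⁺(A)` -/
noncomputable def bdry {n : ℕ} (μ : Measure (Euc n)) (A : Set (Euc n)) : ℝ≥0∞ :=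
  Filter.liminf (fun ε : ℝ => (μ (Metric.thickening ε A) - μ A) / ENNReal.ofReal ε)
    (nhdsWithin 0 (Set.Ioi 0))

/-- the halfspace `⟪u, x⟫ ≤ b` -/
def halfspace {n : ℕ} (u : Euc n) (b : ℝ) : Set (Euc n) := {x | inner ℝ u x ≤ b}

/-- the inequality of Kannan, Lovasz and Simonovits with constant `c` for the uniform measure `μ` on
`K` and sets of measure one half: if `t min(μ H, 1 - μ H) ≤ μ⁺(H)` for all halfspaces `H` then
`c t min(μ A, 1 - μ A) ≤ μ⁺(A)` for all measurable `A` with `μ A = 1/2` -/
def KLSHalf {n : ℕ} (c : ℝ) (K : Set (Euc n)) : Prop :=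
  ∀ t : ℝ≥0∞, (∀ (u : Euc n) (b : ℝ), u ≠ 0 →
      t * min (unif K (halfspace u b)) (1 - unif K (halfspace u b)) ≤
        bdry (unif K) (halfspace u b)) →
    ∀ A : Set (Euc n), MeasurableSet A → unif K A = 1 / 2 →
      ENNReal.ofReal c * t * min (unif K A) (1 - unif K A) ≤ bdry (unif K) A

/-- the relation on signed labels -/
def rel {n : ℕ} (A B C : Fin n → Fin n → Prop) (p q : Fin n × Bool) : Prop :=
  (p.2 = true ∧ q.2 = true ∧ A p.1 q.1) ∨ (p.2 = true ∧ q.2 = false ∧ B p.1 q.1) ∨
    (p.2 = false ∧ q.2 = true ∧ C p.1 q.1)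

theorem cone_iff {n : ℕ} (A B C : Fin n → Fin n → Prop) (x : Fin n → ℝ) :
    ((∀ i j, A i j → x i ≤ x j) ∧ (∀ i j, B i j → x i + x j ≤ 0) ∧ ∀ i j, C i j → 0 ≤ x i + x j) ↔
      ∀ p q, rel A B C p q → Pool.Agent.T2h31.SB.sv x p ≤ Pool.Agent.T2h31.SB.sv x q := by
  constructor
  · rintro ⟨hA, hB, hC⟩
    rintro ⟨i, s⟩ ⟨j, t⟩ (⟨h1, h2, h3⟩ | ⟨h1, h2, h3⟩ | ⟨h1, h2, h3⟩)
    · simp only at h1 h2 h3
      subst h1 h2
      simpa [Pool.Agent.T2h31.SB.sv] using hA i j h3
    · simp only at h1 h2 h3
      subst h1 h2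
      have h := hB i j h3
      simp only [Pool.Agent.T2h31.SB.sv, if_true, Bool.false_eq_true, if_false]
      linarith
    · simp only at h1 h2 h3
      subst h1 h2
      have h := hC i j h3
      simp only [Pool.Agent.T2h31.SB.sv, if_true, Bool.false_eq_true, if_false]
      linarith
  · intro h
    refine ⟨fun i j hij => ?_, fun i j hij => ?_, fun i j hij => ?_⟩
    · have h1 := h (i, true) (j, true) (Or.inl ⟨rfl, rfl, hij⟩)
      simpa [Pool.Agent.T2h31.SB.sv] using h1
    · have h1 := h (i, true) (j, false) (Or.inr (Or.inl ⟨rfl, rfl, hij⟩))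
      simp only [Pool.Agent.T2h31.SB.sv, if_true, Bool.false_eq_true, if_false] at h1
      linarith
    · have h1 := h (i, false) (j, true) (Or.inr (Or.inr ⟨rfl, rfl, hij⟩))
      simp only [Pool.Agent.T2h31.SB.sv, if_true, Bool.false_eq_true, if_false] at h1
      linarith

theorem body_even {n : ℕ} (V : ℝ → ℝ) (E b : ℝ) (A B C : Fin n → Fin n → Prop) :
    body V E (-b) b A B C =
      Pool.Agent.T2h31.OB.KC V E (rel A B C) ∩ {x | ∀ i, |x i| ≤ b} := by
  ext x
  have h := cone_iff A B C fun i => x i
  constructor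
  · rintro ⟨h0, h1, h2⟩
    exact ⟨⟨h1, h.1 h2⟩, fun i => abs_le.2 (h0 i)⟩
  · rintro ⟨⟨h1, h2⟩, h0⟩
    exact ⟨fun i => abs_le.1 (h0 i), h1, h.2 h2⟩

theorem body_order {n : ℕ} (V : ℝ → ℝ) (E a b : ℝ) (A B C : Fin n → Fin n → Prop)
    (hB : ∀ i j, ¬ B i j) (hC : ∀ i j, ¬ C i j) :
    body V E a b A B C = Pool.Agent.T2h31.OB.KA V E A ∩ {x | ∀ i, x i ∈ Icc a b} := by
  ext x
  constructor
  · rintro ⟨h0, h1, h2, -, -⟩
    exact ⟨⟨h1, h2⟩, h0⟩
  · rintro ⟨⟨h1, h2⟩, h0⟩
    exact ⟨h0, h1, h2, fun i j h => absurd h (hB i j), fun i j h => absurd h (hC i j)⟩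

theorem half_of {κ c : ℝ} {n : ℕ} (hn : 1 ≤ n)
    (HF : ∀ (n : ℕ) (K : Set (Euc n)), 1 ≤ n → IsCompact K → Convex ℝ K →
      (interior K).Nonempty → Pool.Agent.T2h31.OB.Ci κ (1 / 32) (Pool.Agent.R476.OR.ind K) →
      ∀ μ : Measure (Euc n), μ = (volume K)⁻¹ • volume.restrict K → ∀ t : ℝ≥0∞,
      (∀ (u : Euc n) (b : ℝ), u ≠ 0 →
        t * min (μ {x | ⟪u, x⟫_ℝ ≤ b}) (1 - μ {x | ⟪u, x⟫_ℝ ≤ b}) ≤
          Filter.liminf (fun ε : ℝ => (μ (Metric.thickening ε {x | ⟪u, x⟫_ℝ ≤ b}) -
            μ {x | ⟪u, x⟫_ℝ ≤ b}) / ENNReal.ofReal ε) (nhdsWithin 0 (Set.Ioi 0))) →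
      ∀ A : Set (Euc n), MeasurableSet A → μ A = 1 / 2 →
        ENNReal.ofReal c * t ≤
          Filter.liminf (fun ε : ℝ => (μ (Metric.thickening ε A) - μ A) / ENNReal.ofReal ε)
            (nhdsWithin 0 (Set.Ioi 0)))
    {K : Set (Euc n)} (h1 : IsCompact K) (h2 : Convex ℝ K) (h3 : (interior K).Nonempty)
    (h4 : Pool.Agent.T2h31.OB.Ci κ (1 / 32) (Pool.Agent.R476.OR.ind K)) : KLSHalf c K := by
  intro t ht S hS hS2
  have key := HF n K hn h1 h2 h3 h4 _ rfl t ht S hS hS2
  refine le_trans ?_ key
  calc _ ≤ ENNReal.ofReal c * t * 1 := by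
        refine mul_le_mul_right ((min_le_left _ _).trans ?_) _
        rw [hS2]
        norm_num
    _ = _ := mul_one _

/-- **KLS (Cheeger form) for the bodies `∑ V(x_i) ≤ E` cut by relations between the coordinates.**
There is an absolute constant `c > 0` such that for all `n ≥ 1`, all convex functions `V` on the line,
all `E, a, b` and all sets `A` of relations `x_i ≤ x_j`, and, if `V` is even and `a = -b`, also all sets
`B`, `C` of relations `x_i + x_j ≤ 0` and `x_i + x_j ≥ 0` (with `i = j` also `x_i ≤ 0`, `x_i ≥ 0`), the body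
`K` of the points of `[a,b]ⁿ` with `∑ V(x_i) ≤ E` which satisfy these relations, if it has an interior
point, is a convex body which satisfies the inequality of Kannan, Lovasz and Simonovits with the
constant `c` for sets of measure one half. -/
theorem result : ∃ c : ℝ, 0 < c ∧
    ∀ (n : ℕ) (V : ℝ → ℝ) (E a b : ℝ) (A B C : Fin n → Fin n → Prop), 1 ≤ n →
      ConvexOn ℝ univ V →
      (((∀ i j, ¬ B i j) ∧ ∀ i j, ¬ C i j) ∨ ((∀ t, V (-t) = V t) ∧ a = -b)) →
      (interior (body V E a b A B C)).Nonempty →
      (IsCompact (body V E a b A B C) ∧ Convex ℝ (body V E a b A B C)) ∧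
        KLSHalf c (body V E a b A B C) := by
  obtain ⟨κ1, hκ1, H1⟩ := Pool.Agent.T2h31.OB.conc_all (1 / 32) (by norm_num)
  obtain ⟨κ2, hκ2, H2⟩ := Pool.Agent.T2h31.OB.concA_all (1 / 32) (by norm_num)
  obtain ⟨c1, hc1, HF1⟩ := Pool.Agent.T2h31.OB.fns_all κ1 hκ1
  obtain ⟨c2, hc2, HF2⟩ := Pool.Agent.T2h31.OB.fns_all κ2 hκ2
  have mono : ∀ (c c' : ℝ) (n : ℕ) (K : Set (Euc n)), c ≤ c' → KLSHalf c' K → KLSHalf c K := by
    intro c c' n K hcc h t ht S hS hS2
    refine le_trans ?_ (h t ht S hS hS2)
    gcongr
  refine ⟨min c1 c2, lt_min hc1 hc2, fun n V E a b A B C hn hV hcase hi => ?_⟩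
  rcases hcase with ⟨hB, hC⟩ | ⟨hev, hab⟩
  · rw [body_order V E a b A B C hB hC] at hi ⊢
    obtain ⟨g1, g2, -⟩ := Pool.Agent.T2h31.OB.t_GEA n A V hn hV E a b
    exact ⟨⟨g1, g2⟩, mono _ _ n _ (min_le_right _ _)
      (half_of hn HF2 g1 g2 hi (H2 n A V E a b hn hV hi))⟩
  · subst hab
    rw [body_even] at hi ⊢
    have hb : 0 < b := by
      obtain ⟨x, hx⟩ := hi
      by_contra hb
      push Not at hb
      have h0 : ∀ y ∈ interior (Pool.Agent.T2h31.OB.KC V E (rel A B C) ∩
          {x : Euc n | ∀ i, |x i| ≤ b}), y = 0 := by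
        intro y hy
        have h1 := (interior_subset hy).2
        ext i
        have h2 := h1 i
        have h3 := abs_nonneg (y i)
        have h4 : |y i| = 0 := le_antisymm (h2.trans hb) h3
        simpa using h4
      have hx0 := h0 x hx
      obtain ⟨ε, hε, hball⟩ := Metric.isOpen_iff.1 isOpen_interior x hx
      have h5 := h0 (x + EuclideanSpace.single (⟨0, hn⟩ : Fin n) (ε / 2)) (hball (by
        rw [Metric.mem_ball, dist_eq_norm, add_sub_cancel_left, EuclideanSpace.norm_single,
          Real.norm_eq_abs, abs_of_pos (by positivity)]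
        linarith))
      rw [hx0, zero_add] at h5
      have h6 := congrArg (fun y : Euc n => y ⟨0, hn⟩) h5
      simp at h6
      exact hε.ne' h6
    obtain ⟨-, -, -, hg⟩ := Pool.Agent.T2h31.OB.t_GEO n (rel A B C) V hV E
    obtain ⟨g1, g2, -⟩ := hg b
    exact ⟨⟨g1, g2⟩, mono _ _ n _ (min_le_left _ _)
      (half_of hn HF1 g1 g2 hi (H1 n (rel A B C) V E b hn hV hev hb hi))⟩

end Pool.Agent.Results.MP_8d00da_gt.OrliczBodiesWithRelations
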