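import Pool.Agent.T2h28.NB.Bd2

/-!
# The threshold for KLS for outer parallel bodies

A parallel body `K = L + r B ⊂ ℝⁿ` (a body in which a ball of radius `r` rolls freely) becomes a ball
when `r` is large compared with the radius `R` of `L`. The theorem says when it is so close to a ball
that the inequality of Kannan, Lovasz and Simonovits holds for this reason alone: exactly if
`n R² / r²` is bounded.

(1) If `n R² ≤ 2 D r²` then the inequality holds (for the sets of measure one half) with a constant which
depends only on `D`. It holds for a larger class, which is closed under limits: all bodies `K` with an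
interior point `x` such that every supporting hyperplane at distance `h` from `x` touches `K` only
within distance `(1 + D / n) h` of `x`. This class contains the bodies `B ⊂ K ⊂ (1 + D / n) B` too. The
parallel bodies of the class need not be at distance `O(1 / n)` of a ball, only at distance
`O(n^{-1/2})`, and the ratio of the volumes of `K` and of the largest ball in `K` can be `exp(c √n)`.

(2) If `D_n` is unbounded, growing as slowly as you like, then Q1 for the parallel bodies
`K = L + r B ⊂ ℝⁿ` with `n R² ≤ 2 D_n r²` (all `n`) is equivalent to Q1 for all bodies, with the same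
constant; the same holds for symmetric bodies.

Method. (1) The support function `h_K` and the radial function `r_K` about `x` satisfy
`r_K ≤ h_K ≤ (1 + δ) r_K` at the points of contact, `δ = D / n`, so `r_K` changes by a factor of at most
`1 + O(√δ)` on the sphere (division of a great circle in small steps). By the Cauchy-Schwarz inequality for
radial functions in polar coordinates the volume of `(1/2) (B' + K)`, for the ball `B'` of the same
volume as `K`, is at most `(1 + 27 ε²)^n` times the volume of `K`, `ε² = 2 δ + δ²`: the Brunn-Minkowski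
inequality for `B'` and `K` has bounded deficit. Now the starting file `BrunnMinkowskiDeficit` applies.
The dimensions where `δ` is not small are settled by the starting file `CentredFibrations`. (2) For a
body `K ⊂ ℝⁿ` of radius `R` consider the parallel bodies `K × {0} + ρ B ⊂ ℝ^N`, `ρ² = N R² / (2 D_N)`,
`D_N → ∞`. The density of their marginal on `ℝⁿ` is at most `exp(- D_N d(y, K)² / (2 R²))` outside of
`K`, where it is constant, so it tends to the uniform measure on `K`. The halfspace constant of the
parallel bodies is in the limit at least the one of `K`; this uses that it is enough to consider the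
halfspaces of measure one half. The inequality for cylinders is integrated over the neighbourhoods of
`A` of a fixed size to pass to the limit.
-/

set_option autoImplicit false

namespace Pool.Agent.Results.MP_8d00da_gt.ParallelBodies

open MeasureTheory Set
open scoped ENNReal InnerProductSpace

/-- Euclidean space of dimension `n` -/
abbrev Euc (n : ℕ) : Type := EuclideanSpace ℝ (Fin n)

/-- the uniform probability measure on `K` -/
noncomputable def unif {n : ℕ} (K : Set (Euc n)) : Measure (Euc n) :=
  (volume K)⁻¹ • volume.restrict K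

/-- convex bodies -/
structure Body {n : ℕ} (K : Set (Euc n)) : Prop where
  comp : IsCompact K
  conv : Convex ℝ K
  int : (interior K).Nonempty

/-- Minkowski (exterior) boundary measure `μ⁺(A)` -/
noncomputable def bdry {n : ℕ} (μ : Measure (Euc n)) (A : Set (Euc n)) : ℝ≥0∞ :=
  Filter.liminf (fun ε : ℝ => (μ (Metric.thickening ε A) - μ A) / ENNReal.ofReal ε)
    (nhdsWithin 0 (Set.Ioi 0))

/-- the halfspace `⟪u, x⟫ ≤ b` -/
def halfspace {n : ℕ} (u : Euc n) (b : ℝ) : Set (Euc n) := {x | inner ℝ u x ≤ b}

/-- `t min(μ H, 1 - μ H) ≤ μ⁺(H)` for all halfspaces `H`, where `μ` is the uniform measure on `K` -/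
def HalfspaceBound {n : ℕ} (t : ℝ≥0∞) (K : Set (Euc n)) : Prop :=
  ∀ (u : Euc n) (b : ℝ), u ≠ 0 →
    t * min (unif K (halfspace u b)) (1 - unif K (halfspace u b)) ≤
      bdry (unif K) (halfspace u b)

/-- the inequality of Kannan, Lovasz and Simonovits with constant `c` (Q1): if
`t min(μ H, 1 - μ H) ≤ μ⁺(H)` for all halfspaces `H` then `c t min(μ A, 1 - μ A) ≤ μ⁺(A)` for all
measurable `A` -/
def KLS {n : ℕ} (c : ℝ) (K : Set (Euc n)) : Prop :=
  ∀ t : ℝ≥0∞, HalfspaceBound t K → ∀ A : Set (Euc n), MeasurableSet A →
    ENNReal.ofReal c * t * min (unif K A) (1 - unif K A) ≤ bdry (unif K) A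

/-- the same for the sets `A` with `μ A = 1/2` -/
def KLSHalf {n : ℕ} (c : ℝ) (K : Set (Euc n)) : Prop :=
  ∀ t : ℝ≥0∞, HalfspaceBound t K → ∀ A : Set (Euc n), MeasurableSet A → unif K A = 1 / 2 →
    ENNReal.ofReal c * t * min (unif K A) (1 - unif K A) ≤ bdry (unif K) A

/-- for some interior point `x` every supporting hyperplane of `K`, at distance `h` from `x`, touches
`K` only within distance `(1 + δ) h` of `x` -/
def TouchesNearFoot {n : ℕ} (δ : ℝ) (K : Set (Euc n)) : Prop :=
  ∃ x ∈ interior K, ∀ u : Euc n, ‖u‖ = 1 → ∀ y ∈ K, (∀ z ∈ K, ⟪u, z⟫_ℝ ≤ ⟪u, y⟫_ℝ) →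
    ‖y - x‖ ≤ (1 + δ) * ⟪u, y - x⟫_ℝ

/-- `K = L + r B`, where `L` is convex and compact and contained in the ball of radius `√(2 δ) r` about
one of its points -/
def Parallel {n : ℕ} (δ : ℝ) (K : Set (Euc n)) : Prop :=
  ∃ (L : Set (Euc n)) (x : Euc n) (r : ℝ), IsCompact L ∧ Convex ℝ L ∧ x ∈ L ∧ 0 < r ∧
    L ⊆ Metric.closedBall x (Real.sqrt (2 * δ) * r) ∧ K = Metric.cthickening r L

/-- `K = -K` -/
def Symmetric {n : ℕ} (K : Set (Euc n)) : Prop := ∀ x ∈ K, -x ∈ K

theorem body_iff {n : ℕ} {K : Set (Euc n)} : Body K ↔ Pool.Agent.T2h28.NB.Body K :=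
  ⟨fun h => ⟨h.comp, h.conv, h.int⟩, fun h => ⟨h.comp, h.conv, h.int⟩⟩

theorem kls_iff {n : ℕ} {c : ℝ} {K : Set (Euc n)} : KLS c K ↔ Pool.Agent.T2h28.NB.KLS c K := Iff.rfl

/-- a near-ball is in the larger class -/
theorem near_touches {n : ℕ} {δ : ℝ} {K : Set (Euc n)} {x : Euc n} {r : ℝ} (hr : 0 < r)
    (hδ : -1 ≤ δ) (h₁ : Metric.closedBall x r ⊆ K) (h₂ : K ⊆ Metric.closedBall x ((1 + δ) * r)) :
    TouchesNearFoot δ K := by
  refine ⟨x, ?_, ?_⟩
  · rw [mem_interior]
    exact ⟨Metric.ball x r, Metric.ball_subset_closedBall.trans h₁, Metric.isOpen_ball,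
      Metric.mem_ball_self hr⟩
  · intro u hu y hy hmax
    have h3 : x + r • u ∈ K := h₁ (by
      rw [Metric.mem_closedBall, dist_eq_norm, add_sub_cancel_left, norm_smul, hu, mul_one,
        Real.norm_of_nonneg hr.le])
    have h4 := hmax _ h3
    have h5 : r ≤ ⟪u, y - x⟫_ℝ := by
      rw [inner_add_right, inner_smul_right, real_inner_self_eq_norm_mul_norm, hu] at h4
      rw [inner_sub_right]
      linarith
    have h6 := h₂ hy
    rw [Metric.mem_closedBall, dist_eq_norm] at h6
    exact h6.trans (mul_le_mul_of_nonneg_left h5 (by linarith))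

/-- **The threshold for parallel bodies.** (1) If `D` is bounded then the inequality, for sets of measure
one half, holds for all bodies of the class `TouchesNearFoot (D n / n)`, with a constant which depends
only on `D`; (2) this class contains the parallel bodies `L + r B` with `n R² ≤ 2 (D n) r²`, where `R`
is a radius of `L`; (3) if `D` is unbounded then Q1 for these parallel bodies is equivalent to Q1 for
all bodies, with equal constants (`sym = False`: all bodies, `sym = True`: symmetric bodies only). -/
theorem result (D : ℕ → ℝ) :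
    (BddAbove (range D) → ∃ c : ℝ, 0 < c ∧ ∀ (n : ℕ) (K : Set (Euc n)), Body K →
      TouchesNearFoot (D n / n) K → KLSHalf c K) ∧
    (∀ (n : ℕ) (δ : ℝ) (K : Set (Euc n)), 0 ≤ δ → Parallel δ K → TouchesNearFoot δ K) ∧
    (¬ BddAbove (range D) → ∀ (sym : Prop) (c : ℝ),
      (∀ (n : ℕ) (K : Set (Euc n)), Body K → (sym → Symmetric K) → Parallel (D n / n) K →
          KLS c K) ↔
        ∀ (n : ℕ) (K : Set (Euc n)), Body K → (sym → Symmetric K) → KLS c K) := by
  refine ⟨fun hD => ?_, fun n δ K hδ hK => ?_, fun hD sym c => ⟨?_, ?_⟩⟩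
  · obtain ⟨c, hc, H⟩ := Pool.Agent.T2h28.NB.round_bdd hD
    exact ⟨c, hc, fun n K hK hN => H n K (body_iff.1 hK) hN⟩
  · exact Pool.Agent.T2h28.NB.par_round hδ hK
  · intro H n K hK hs
    refine Pool.Agent.T2h28.NB.par_all (body_iff.1 hK) hD fun N L hL h1 h2 => ?_
    exact H N L (body_iff.2 hL) (fun hsym => h2 (hs hsym)) h1
  · exact fun H n K hK hs _ => H n K hK hs

end Pool.Agent.Results.MP_8d00da_gt.ParallelBodies
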